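import Pool.Agent.Helper95.QT.PattA
import Pool.Agent.Helper7.PNT.AP
import Pool.Agent.Helper96.QT.Def

/-!
# The patterns are equidistributed
-/

set_option autoImplicit false

namespace Pool.Agent.Helper95.QT

open Finset Filter Topology
open Pool.Agent.Helper7.PNT (piAP pi_ap prime_number_theorem)

theorem PX_eq (X : ℕ) : Pool.Agent.QT.PX X = PX X := rfl

theorem pat_eq (X q : ℕ) : Pool.Agent.QT.pat X q = pat X q := rfl

/-- the primes of the classes of the pattern -/
theorem pat_unit {X q : ℕ} (u : (ZMod (mo X))ˣ) (h : (q : ZMod (mo X)) = u) :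
    pat X q = pu X u := by
  have hc : q.Coprime (mo X) := (ZMod.isUnit_iff_coprime q (mo X)).1 (by rw [h]; exact u.isUnit)
  have ho := odd_of_coprime hc
  unfold pu pat
  refine Finset.filter_congr fun p hp => ?_
  rw [← h, ZMod.val_natCast, sym_mod hp ho]

/-- the number of the primes up to `Q` with the pattern `T` -/
noncomputable def NT (X : ℕ) (T : Finset ℕ) (Q : ℕ) : ℕ :=
  ((Finset.Icc 1 Q).filter fun q => q.Prime ∧ pat X q = T).card

/-- the units of the pattern -/
noncomputable def fb (X : ℕ) (T : Finset ℕ) : Finset (ZMod (mo X))ˣ :=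
  Finset.univ.filter fun u => pu X u = T

theorem disj (X Q : ℕ) (s : Finset (ZMod (mo X))ˣ) :
    ((s : Set (ZMod (mo X))ˣ)).PairwiseDisjoint fun u =>
      (Finset.Icc 1 Q).filter fun p : ℕ => p.Prime ∧ (p : ZMod (mo X)) = u := by
  intro u _ v _ huv
  refine Finset.disjoint_left.2 fun p hp hq => huv ?_
  have h1 := (mem_filter.1 hp).2.2
  have h2 := (mem_filter.1 hq).2.2
  exact Units.ext (h1.symm.trans h2)

theorem lower (X : ℕ) (T : Finset ℕ) (Q : ℕ) :
    ∑ u ∈ fb X T, piAP (u : ZMod (mo X)) (Q : ℝ) ≤ NT X T Q := by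
  unfold piAP NT
  rw [Nat.floor_natCast, ← Finset.card_biUnion (disj X Q _)]
  refine Finset.card_le_card fun q hq => ?_
  obtain ⟨u, hu, hq⟩ := mem_biUnion.1 hq
  obtain ⟨h1, h2, h3⟩ := mem_filter.1 hq
  refine mem_filter.2 ⟨h1, h2, ?_⟩
  rw [pat_unit u h3]
  exact (mem_filter.1 hu).2

theorem upper (X : ℕ) (T : Finset ℕ) (Q : ℕ) :
    NT X T Q ≤ ∑ u ∈ fb X T, piAP (u : ZMod (mo X)) (Q : ℝ) + (X + 2) := by
  unfold piAP NT
  rw [Nat.floor_natCast, ← Finset.card_biUnion (disj X Q _)]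
  have : (Finset.Icc 1 Q).filter (fun q => q.Prime ∧ pat X q = T) ⊆
      ((fb X T).biUnion fun u => (Finset.Icc 1 Q).filter fun p : ℕ => p.Prime ∧
        (p : ZMod (mo X)) = u) ∪ Finset.Icc 1 (X + 2) := by
    intro q hq
    obtain ⟨h1, h2, h3⟩ := mem_filter.1 hq
    rcases le_or_gt q (X + 2) with h | h
    · exact mem_union_right _ (mem_Icc.2 ⟨h2.pos, h⟩)
    · have hc : q.Coprime (mo X) := by
        unfold mo
        refine Nat.Coprime.mul_right ?_ (Nat.Coprime.prod_right fun p hp => ?_)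
        · exact Nat.Coprime.pow_right 3 ((Nat.coprime_primes h2 Nat.prime_two).2 (by omega))
        · obtain ⟨hp1, hp2⟩ := mem_PX.1 hp
          exact (Nat.coprime_primes h2 hp1).2 (by omega)
      refine mem_union_left _ (mem_biUnion.2 ⟨ZMod.unitOfCoprime q hc, ?_, ?_⟩)
      · refine mem_filter.2 ⟨Finset.mem_univ _, ?_⟩
        rw [← pat_unit (q := q) _ (ZMod.coe_unitOfCoprime q hc).symm]
        exact h3
      · exact mem_filter.2 ⟨h1, h2, (ZMod.coe_unitOfCoprime q hc).symm⟩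
  refine (Finset.card_le_card this).trans ((Finset.card_union_le _ _).trans ?_)
  rw [Nat.card_Icc]
  omega

theorem log_div : Tendsto (fun Q : ℕ => Real.log Q / Q) atTop (𝓝 0) := by
  have h := Real.isLittleO_log_id_atTop.tendsto_div_nhds_zero
  exact h.comp tendsto_natCast_atTop_atTop

theorem main {X : ℕ} {T : Finset ℕ} (hT : T ⊆ PX X) :
    Tendsto (fun Q : ℕ => (NT X T Q : ℝ) / (Nat.primeCounting Q : ℝ)) atTop
      (𝓝 (1 / 2 ^ (PX X).card)) := by
  have hphi : (0 : ℝ) < (mo X).totient := by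
    exact_mod_cast Nat.totient_pos.2 (mo_pos X)
  have hcount : ((fb X T).card : ℝ) * ((mo X).totient : ℝ)⁻¹ = 1 / 2 ^ (PX X).card := by
    have := count hT
    have h : ((fb X T).card : ℝ) * 2 ^ (PX X).card = (mo X).totient := by exact_mod_cast this
    rw [← h]
    have h2 : (0 : ℝ) < 2 ^ (PX X).card := by positivity
    have h3 : (0 : ℝ) < (fb X T).card := by
      rw [← h] at hphi
      exact pos_of_mul_pos_left hphi h2.le
    field_simp
  -- the sum over the classes
  have hS : Tendsto (fun Q : ℕ => ((∑ u ∈ fb X T, piAP (u : ZMod (mo X)) (Q : ℝ) : ℕ) : ℝ) *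
      Real.log Q / Q) atTop (𝓝 (1 / 2 ^ (PX X).card)) := by
    rw [← hcount, ← nsmul_eq_mul, ← Finset.sum_const]
    have : ∀ u ∈ fb X T, Tendsto (fun Q : ℕ => (piAP (u : ZMod (mo X)) (Q : ℝ) : ℝ) *
        Real.log Q / Q) atTop (𝓝 ((mo X).totient : ℝ)⁻¹) := fun u _ =>
      (pi_ap (u.isUnit)).comp tendsto_natCast_atTop_atTop
    refine (tendsto_finsetSum _ this).congr fun Q => ?_
    rw [Nat.cast_sum, Finset.sum_mul, Finset.sum_div]
  have hN : Tendsto (fun Q : ℕ => (NT X T Q : ℝ) * Real.log Q / Q) atTop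
      (𝓝 (1 / 2 ^ (PX X).card)) := by
    have hU : Tendsto (fun Q : ℕ => ((∑ u ∈ fb X T, piAP (u : ZMod (mo X)) (Q : ℝ) : ℕ) : ℝ) *
        Real.log Q / Q + (X + 2) * (Real.log Q / Q)) atTop (𝓝 (1 / 2 ^ (PX X).card)) := by
      have := hS.add (log_div.const_mul ((X : ℝ) + 2))
      simpa using this
    refine tendsto_of_tendsto_of_tendsto_of_le_of_le hS hU (fun Q => ?_) fun Q => ?_
    · have h1 : ((∑ u ∈ fb X T, piAP (u : ZMod (mo X)) (Q : ℝ) : ℕ) : ℝ) ≤ NT X T Q := by
        exact_mod_cast lower X T Q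
      have h2 : 0 ≤ Real.log Q := Real.log_natCast_nonneg Q
      have h3 : (0 : ℝ) ≤ Q := Nat.cast_nonneg Q
      exact div_le_div_of_nonneg_right (mul_le_mul_of_nonneg_right h1 h2) h3
    · have h1 : (NT X T Q : ℝ) ≤
          ((∑ u ∈ fb X T, piAP (u : ZMod (mo X)) (Q : ℝ) : ℕ) : ℝ) + (X + 2) := by
        exact_mod_cast upper X T Q
      have h2 : 0 ≤ Real.log Q := Real.log_natCast_nonneg Q
      have h3 : (0 : ℝ) ≤ Q := Nat.cast_nonneg Q
      refine (div_le_div_of_nonneg_right (mul_le_mul_of_nonneg_right h1 h2) h3).trans_eq ?_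
      ring
  have hP : Tendsto (fun Q : ℕ => (Nat.primeCounting Q : ℝ) * Real.log Q / Q) atTop (𝓝 1) := by
    refine (prime_number_theorem.comp tendsto_natCast_atTop_atTop).congr fun Q => ?_
    simp only [Function.comp_apply, Nat.floor_natCast]
  have := hN.div hP one_ne_zero
  rw [div_one] at this
  refine this.congr' ?_
  filter_upwards [eventually_ge_atTop 2] with Q hQ
  have h1 : (0 : ℝ) < Q := by exact_mod_cast (by omega : 0 < Q)
  have h2 : 0 < Real.log Q := Real.log_pos (by exact_mod_cast (by omega : 1 < Q))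
  simp only [Pi.div_apply]
  rw [mul_div_assoc (NT X T Q : ℝ), mul_div_assoc (Nat.primeCounting Q : ℝ),
    mul_div_mul_right _ _ (div_pos h2 h1).ne']

end Pool.Agent.Helper95.QT

namespace Pool.Agent.QT

open Filter Topology

/-- **QT13: the patterns are equidistributed** -/
theorem eq_patterns (X : ℕ) (T : Finset ℕ) (hT : T ⊆ PX X) :
    Tendsto (fun Q : ℕ => (((Finset.Icc 1 Q).filter fun q => q.Prime ∧ pat X q = T).card : ℝ) /
      (Nat.primeCounting Q : ℝ)) atTop (𝓝 (1 / 2 ^ (PX X).card)) :=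
  Pool.Agent.Helper95.QT.main hT

end Pool.Agent.QT
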