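import Mathlib

/-!
# The patterns of quadratic residues: the count of the classes
-/

set_option autoImplicit false

namespace Pool.Agent.Helper95.QT

open Finset
open scoped NumberTheorySymbols

/-- the primes up to `X` -/
def PX (X : ℕ) : Finset ℕ := (Finset.Icc 1 X).filter Nat.Prime

/-- the pattern of the number `q` -/
def pat (X q : ℕ) : Finset ℕ := (PX X).filter fun p => jacobiSym p q = 1

/-- the modulus -/
def mo (X : ℕ) : ℕ := 8 * ∏ p ∈ PX X, p

theorem mem_PX {X p : ℕ} : p ∈ PX X ↔ p.Prime ∧ p ≤ X := by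
  unfold PX
  rw [mem_filter, mem_Icc]
  constructor
  · rintro ⟨⟨-, h1⟩, h2⟩
    exact ⟨h2, h1⟩
  · rintro ⟨h1, h2⟩
    exact ⟨⟨h1.pos, h2⟩, h1⟩

theorem mo_pos (X : ℕ) : 0 < mo X :=
  Nat.mul_pos (by norm_num) (prod_pos fun p hp => (mem_PX.1 hp).1.pos)

instance (X : ℕ) : NeZero (mo X) := ⟨(mo_pos X).ne'⟩

theorem mo_gt (X : ℕ) : 1 < mo X := by
  have : 0 < ∏ p ∈ PX X, p := prod_pos fun p hp => (mem_PX.1 hp).1.pos
  unfold mo
  omega

theorem dvd_mo {X p : ℕ} (hp : p ∈ PX X) : 4 * p ∣ mo X :=
  Nat.mul_dvd_mul (by norm_num) (dvd_prod_of_mem _ hp)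

theorem even_mo (X : ℕ) : Even (mo X) := by
  unfold mo
  exact Even.mul_right (by decide) _

/-- the symbol depends only on the class -/
theorem sym_mod {X p b : ℕ} (hp : p ∈ PX X) (hb : Odd b) :
    jacobiSym p (b % mo X) = jacobiSym p b := by
  have h1 : Odd (b % mo X) := hb.mod_even (even_mo X)
  rw [jacobiSym.mod_right' p h1, jacobiSym.mod_right' p hb, Nat.mod_mod_of_dvd _ (dvd_mo hp)]

theorem odd_of_coprime {X b : ℕ} (h : b.Coprime (mo X)) : Odd b := by
  rcases Nat.even_or_odd b with hb | hb
  · exfalso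
    have h1 : 2 ∣ b := hb.two_dvd
    have h2 : 2 ∣ mo X := (even_mo X).two_dvd
    have := Nat.dvd_gcd h1 h2
    rw [h] at this
    omega
  · exact hb

theorem sym_ne {X p b : ℕ} (hp : p ∈ PX X) (h : b.Coprime (mo X)) :
    jacobiSym p b = 1 ∨ jacobiSym p b = -1 := by
  apply jacobiSym.eq_one_or_neg_one
  have h1 : b.Coprime p := h.coprime_dvd_right ((Dvd.intro_left 4 rfl).trans (dvd_mo hp))
  exact_mod_cast h1.symm

/-- the homomorphism of the symbols -/
noncomputable def ho (X : ℕ) : (ZMod (mo X))ˣ →* ({p // p ∈ PX X} → ℤ) where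
  toFun u := fun p => jacobiSym (p : ℕ) (u : ZMod (mo X)).val
  map_one' := by
    funext p
    have : ((1 : (ZMod (mo X))ˣ) : ZMod (mo X)).val = 1 := by
      have : Fact (1 < mo X) := ⟨mo_gt X⟩
      rw [Units.val_one, ZMod.val_one]
    rw [this, jacobiSym.one_right]
    rfl
  map_mul' u v := by
    funext p
    have hu := ZMod.val_coe_unit_coprime u
    have hv := ZMod.val_coe_unit_coprime v
    have ou := odd_of_coprime hu
    have ov := odd_of_coprime hv
    simp only [Units.val_mul, Pi.mul_apply]
    rw [ZMod.val_mul, sym_mod p.2 (ou.mul ov)]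
    exact jacobiSym.mul_right' _ (by rintro h; rw [h] at ou; exact absurd ou (by decide))
      (by rintro h; rw [h] at ov; exact absurd ov (by decide))

/-- the pattern of a unit -/
noncomputable def pu (X : ℕ) (u : (ZMod (mo X))ˣ) : Finset ℕ := pat X (u : ZMod (mo X)).val

/-- the target of a pattern -/
def tg (X : ℕ) (T : Finset ℕ) : {p // p ∈ PX X} → ℤ := fun p => if (p : ℕ) ∈ T then 1 else -1

theorem pu_iff {X : ℕ} {T : Finset ℕ} (hT : T ⊆ PX X) (u : (ZMod (mo X))ˣ) :
    pu X u = T ↔ ho X u = tg X T := by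
  have hu := ZMod.val_coe_unit_coprime u
  constructor
  · rintro rfl
    funext p
    change jacobiSym (p : ℕ) (u : ZMod (mo X)).val = if (p : ℕ) ∈ pu X u then 1 else -1
    unfold pu pat
    split_ifs with h
    · exact (mem_filter.1 h).2
    · rcases sym_ne p.2 hu with e | e
      · exact absurd (mem_filter.2 ⟨p.2, e⟩) h
      · exact e
  · intro h
    ext p
    constructor
    · intro hp
      obtain ⟨h1, h2⟩ := mem_filter.1 hp
      have := congrFun h ⟨p, h1⟩
      change jacobiSym p (u : ZMod (mo X)).val = if p ∈ T then 1 else -1 at this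
      by_contra hc
      rw [if_neg hc, h2] at this
      norm_num at this
    · intro hp
      have := congrFun h ⟨p, hT hp⟩
      change jacobiSym p (u : ZMod (mo X)).val = if p ∈ T then 1 else -1 at this
      rw [if_pos hp] at this
      exact mem_filter.2 ⟨hT hp, this⟩

/-- the residue class modulo the prime `p` -/
theorem exists_res (p : ℕ) (hp : p.Prime) (h2 : p ≠ 2) :
    ∃ n : ℕ, n.Coprime p ∧ jacobiSym n p = -1 := by
  have : Fact p.Prime := ⟨hp⟩
  obtain ⟨a, ha⟩ := FiniteField.exists_nonsquare (F := ZMod p) (by rwa [ZMod.ringChar_zmod_n])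
  have e : ((a.val : ℕ) : ZMod p) = a := ZMod.natCast_zmod_val a
  have h0 : a ≠ 0 := by
    rintro rfl
    exact ha ⟨0, by simp⟩
  have h : legendreSym p a.val = -1 := by
    rw [legendreSym.eq_neg_one_iff]
    rw [Int.cast_natCast, e]
    exact ha
  refine ⟨a.val, ?_, ?_⟩
  · have := (ZMod.isUnit_iff_coprime a.val p).1 (by rw [e]; exact h0.isUnit)
    exact this
  · rw [← jacobiSym.legendreSym.to_jacobiSym]
    exact h

theorem surj {X : ℕ} {T : Finset ℕ} (hT : T ⊆ PX X) : tg X T ∈ Set.range (ho X) := by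
  classical
  choose! n hn using fun (p : ℕ) (h : p.Prime ∧ p ≠ 2) => exists_res p h.1 h.2
  set s : ℕ → ℕ := fun p => if p = 2 then 8 else p with hs
  set r : ℕ → ℕ := fun p => if p = 2 then (if 2 ∈ T then 1 else 5) else
    (if p ∈ T then 1 else n p) with hr
  obtain ⟨a, ha⟩ := Nat.chineseRemainderOfFinset r s (insert 2 (PX X)) (by
    intro p hp
    simp only [hs]
    split_ifs with h
    · norm_num
    · rcases mem_insert.1 hp with h1 | h1
      · exact absurd h1 h
      · exact (mem_PX.1 h1).1.ne_zero) (by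
    intro p hp q hq hpq
    have h1 : ∀ p ∈ insert 2 (PX X), p.Prime := by
      intro p hp
      rcases mem_insert.1 hp with h1 | h1
      · rw [h1]; exact Nat.prime_two
      · exact (mem_PX.1 h1).1
    have p1 := h1 p hp
    have q1 := h1 q hq
    change (s p).Coprime (s q)
    simp only [hs]
    split_ifs with h2 h3 h3
    · exact absurd (h2.trans h3.symm) hpq
    · exact (Nat.Coprime.pow_left 3 ((Nat.coprime_primes Nat.prime_two q1).2 (Ne.symm h3)))
    · exact (Nat.Coprime.pow_right 3 ((Nat.coprime_primes p1 Nat.prime_two).2 h2))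
    · exact (Nat.coprime_primes p1 q1).2 hpq)
  have h8 : a ≡ (if 2 ∈ T then 1 else 5) [MOD 8] := by
    have := ha 2 (mem_insert_self _ _)
    simpa [hs, hr] using this
  have h8' : a % 8 = (if 2 ∈ T then 1 else 5) := by
    have := h8
    unfold Nat.ModEq at this
    rw [this]
    split_ifs <;> rfl
  have h4 : a % 4 = 1 := by
    split_ifs at h8' <;> omega
  have hodd : Odd a := Nat.odd_iff.2 (by omega)
  have hp' : ∀ p ∈ PX X, p ≠ 2 → a ≡ (if p ∈ T then 1 else n p) [MOD p] := by
    intro p hp h2
    have := ha p (mem_insert_of_mem hp)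
    simpa [hs, hr, h2] using this
  have hsym : ∀ p ∈ PX X, jacobiSym p a = if p ∈ T then 1 else -1 := by
    intro p hp
    rcases eq_or_ne p 2 with rfl | h2
    · rw [show ((2 : ℕ) : ℤ) = 2 by norm_num, jacobiSym.at_two hodd]
      have e : ((a : ℕ) : ZMod 8) = ((a % 8 : ℕ) : ZMod 8) := by
        rw [ZMod.natCast_mod]
      rw [e, h8']
      split_ifs <;> decide
    · have hpr := (mem_PX.1 hp).1
      have hpo : Odd p := hpr.odd_of_ne_two h2
      rw [← jacobiSym.quadratic_reciprocity_one_mod_four h4 hpo]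
      have h3 := hp' p hp h2
      split_ifs at h3 ⊢ with h5
      · have e : (a : ℤ) % p = (1 : ℤ) % p := by exact_mod_cast h3
        rw [jacobiSym.mod_left' e, jacobiSym.one_left]
      · have e : (a : ℤ) % p = (n p : ℤ) % p := by exact_mod_cast h3
        rw [jacobiSym.mod_left' e, (hn p ⟨hpr, h2⟩).2]
  have hcop : a.Coprime (mo X) := by
    unfold mo
    refine Nat.Coprime.mul_right ?_ (Nat.Coprime.prod_right fun p hp => ?_)
    · exact (Nat.Coprime.pow_right 3 hodd.coprime_two_right)
    · by_contra hc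
      have hpr := (mem_PX.1 hp).1
      have h1 : p ∣ a := by
        by_contra h
        exact hc ((Nat.Prime.coprime_iff_not_dvd hpr).2 h).symm
      have h0 : jacobiSym p a = 0 := by
        have : NeZero a := ⟨by rintro rfl; exact absurd hodd (by decide)⟩
        rw [jacobiSym.eq_zero_iff_not_coprime]
        intro h
        have h' : Nat.gcd p a = 1 := by exact_mod_cast h
        rw [Nat.gcd_eq_left h1] at h'
        exact hpr.one_lt.ne' h'
      have := hsym p hp
      rw [h0] at this
      split_ifs at this <;> norm_num at this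
  refine ⟨ZMod.unitOfCoprime a hcop, ?_⟩
  funext p
  change jacobiSym (p : ℕ) ((ZMod.unitOfCoprime a hcop : (ZMod (mo X))ˣ) : ZMod (mo X)).val =
    if (p : ℕ) ∈ T then 1 else -1
  rw [ZMod.coe_unitOfCoprime, ZMod.val_natCast, sym_mod p.2 hodd]
  exact hsym p p.2

/-- **the number of the classes with a given pattern** -/
theorem count {X : ℕ} {T : Finset ℕ} (hT : T ⊆ PX X) :
    (Finset.univ.filter fun u => pu X u = T).card * 2 ^ (PX X).card = (mo X).totient := by
  classical
  have h1 : ∀ T' ∈ (PX X).powerset, (Finset.univ.filter fun u => pu X u = T').card =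
      (Finset.univ.filter fun u => pu X u = T).card := by
    intro T' hT'
    rw [mem_powerset] at hT'
    have e1 : (Finset.univ.filter fun u => pu X u = T') =
        Finset.univ.filter fun u => ho X u = tg X T' :=
      Finset.filter_congr fun u _ => pu_iff hT' u
    have e2 : (Finset.univ.filter fun u => pu X u = T) =
        Finset.univ.filter fun u => ho X u = tg X T :=
      Finset.filter_congr fun u _ => pu_iff hT u
    rw [e1, e2]
    exact MonoidHom.card_fiber_eq_of_mem_range (ho X) (surj hT') (surj hT)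
  have h2 : (Finset.univ : Finset (ZMod (mo X))ˣ).card =
      ∑ T' ∈ (PX X).powerset, (Finset.univ.filter fun u => pu X u = T').card :=
    Finset.card_eq_sum_card_fiberwise fun u _ => by
      simp only [mem_coe, mem_powerset]
      exact filter_subset _ _
  rw [Finset.sum_congr rfl h1, Finset.sum_const, card_powerset, smul_eq_mul, Finset.card_univ,
    ZMod.card_units_eq_totient] at h2
  rw [h2, mul_comm]

end Pool.Agent.Helper95.QT
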